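import Mathlib

/-! Counting windows. -/

namespace Pool.Agent.Helper30.BSP

open Finset

/-- An interval of natural numbers. -/
def Conv (A : Finset ℕ) : Prop := ∀ a ∈ A, ∀ b ∈ A, ∀ t, a ≤ t → t ≤ b → t ∈ A

/-- The starting points of the windows of length `k` contained in `A`. -/
def Win (k : ℕ) (A : Finset ℕ) : Finset ℕ := A.filter (fun j => ∀ t < k, j + t ∈ A)

lemma mem_Win {k : ℕ} (hk : 1 ≤ k) {A : Finset ℕ} {j : ℕ} :
    j ∈ Win k A ↔ ∀ t < k, j + t ∈ A := by
  unfold Win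
  rw [mem_filter]
  constructor
  · exact fun h => h.2
  · intro h
    have := h 0 (by omega)
    exact ⟨by simpa using this, h⟩

lemma card_Win {A : Finset ℕ} (hA : Conv A) {k : ℕ} (hk : 1 ≤ k) :
    (Win k A).card = A.card + 1 - k := by
  rcases A.eq_empty_or_nonempty with h | h
  · subst h
    have : Win k (∅ : Finset ℕ) = ∅ := by unfold Win; simp
    rw [this]
    simp
    omega
  · obtain ⟨a, ha⟩ : ∃ a, a = A.min' h := ⟨_, rfl⟩
    obtain ⟨b, hb⟩ : ∃ b, b = A.max' h := ⟨_, rfl⟩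
    have haA : a ∈ A := ha ▸ A.min'_mem h
    have hbA : b ∈ A := hb ▸ A.max'_mem h
    have hab : a ≤ b := ha ▸ A.min'_le b hbA
    have hAI : A = Icc a b := by
      ext t
      rw [mem_Icc]
      constructor
      · intro ht
        exact ⟨ha ▸ A.min'_le t ht, hb ▸ A.le_max' t ht⟩
      · rintro ⟨h1, h2⟩
        exact hA a haA b hbA t h1 h2
    have hW : Win k A = Ico a (b + 2 - k) := by
      ext j
      rw [mem_Win hk, mem_Ico, hAI]
      constructor
      · intro hj
        have h1 := hj 0 (by omega)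
        have h2 := hj (k - 1) (by omega)
        rw [mem_Icc] at h1 h2
        omega
      · rintro ⟨h1, h2⟩ t ht
        rw [mem_Icc]
        omega
    rw [hW, hAI, Nat.card_Ico, Nat.card_Icc]
    omega

/-- The number of arrays lost at a cut. -/
lemma lost_bound {k I : ℕ} (hk : 1 ≤ k) {Hs Lo Hi : Finset ℕ} (cH : Conv Hs) (cL : Conv Lo)
    (cU : Conv Hi) (hLo : Lo ⊆ Hs) (hHi : Hi ⊆ Hs) (hdis : ∀ j ∈ Lo, j ∉ Hi)
    (L : Finset (ℕ × ℕ))
    (h0 : ∀ p ∈ L, p.1 ≤ I ∧ I + 1 ≤ p.1 + k ∧ ∀ t < k, p.2 + t ∈ Hs)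
    (h1 : ∀ p ∈ L, p.1 = I → ¬ ∀ t < k, p.2 + t ∈ Lo)
    (h2 : ∀ p ∈ L, p.1 + k = I + 1 → ¬ ∀ t < k, p.2 + t ∈ Hi) :
    L.card + (Lo.card + 1 - k) + (Hi.card + 1 - k) ≤ k * (Hs.card + 1 - k) := by
  classical
  rw [← card_Win cL hk, ← card_Win cU hk, ← card_Win cH hk]
  have e1 : (L.image (fun p => (I - p.1, p.2))).card = L.card := by
    apply card_image_of_injOn
    intro p hp q hq hpq
    have hp' := h0 p hp
    have hq' := h0 q hq
    simp only [Prod.mk.injEq] at hpq
    ext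
    · omega
    · exact hpq.2
  have e2 : ((Win k Lo).image (fun j => (0, j))).card = (Win k Lo).card := by
    apply card_image_of_injective
    intro a b hab
    simpa using hab
  have e3 : ((Win k Hi).image (fun j => (k - 1, j))).card = (Win k Hi).card := by
    apply card_image_of_injective
    intro a b hab
    simpa using hab
  have d1 : Disjoint (L.image (fun p => (I - p.1, p.2))) ((Win k Lo).image (fun j => (0, j))) := by
    rw [disjoint_left]
    intro x hx hy
    rw [mem_image] at hx hy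
    obtain ⟨p, hp, rfl⟩ := hx
    obtain ⟨j, hj, hj2⟩ := hy
    simp only [Prod.mk.injEq] at hj2
    have hp' := h0 p hp
    apply h1 p hp (by omega)
    rw [← hj2.2]
    exact (mem_Win hk).1 hj
  have d2 : Disjoint (L.image (fun p => (I - p.1, p.2)) ∪ (Win k Lo).image (fun j => (0, j)))
      ((Win k Hi).image (fun j => (k - 1, j))) := by
    rw [disjoint_left]
    intro x hx hy
    rw [mem_image] at hy
    obtain ⟨j, hj, rfl⟩ := hy
    rw [mem_union, mem_image, mem_image] at hx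
    rcases hx with ⟨p, hp, hp2⟩ | ⟨i, hi, hi2⟩
    · simp only [Prod.mk.injEq] at hp2
      have hp' := h0 p hp
      apply h2 p hp (by omega)
      rw [hp2.2]
      exact (mem_Win hk).1 hj
    · simp only [Prod.mk.injEq] at hi2
      have a1 := (mem_Win hk).1 hi 0 (by omega)
      have a2 := (mem_Win hk).1 hj 0 (by omega)
      rw [hi2.2] at a1
      exact hdis _ a1 a2
  have hsub : (L.image (fun p => (I - p.1, p.2)) ∪ (Win k Lo).image (fun j => (0, j))) ∪
      (Win k Hi).image (fun j => (k - 1, j)) ⊆ range k ×ˢ Win k Hs := by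
    intro x hx
    rw [mem_union, mem_union, mem_image, mem_image, mem_image] at hx
    rw [mem_product, mem_range]
    rcases hx with (⟨p, hp, rfl⟩ | ⟨j, hj, rfl⟩) | ⟨j, hj, rfl⟩
    · have hp' := h0 p hp
      refine ⟨?_, (mem_Win hk).2 hp'.2.2⟩
      show I - p.1 < k
      omega
    · exact ⟨by show 0 < k; omega, (mem_Win hk).2 fun t ht => hLo ((mem_Win hk).1 hj t ht)⟩
    · exact ⟨by show k - 1 < k; omega, (mem_Win hk).2 fun t ht => hHi ((mem_Win hk).1 hj t ht)⟩
  have := card_le_card hsub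
  rw [card_union_of_disjoint d2, card_union_of_disjoint d1, e1, e2, e3, card_product,
    card_range] at this
  exact this

/-- The weights `1, 1, 1/3, 1/21, 1/315, ...`. -/
noncomputable def lam (r : ℕ) : ℝ := ∏ s ∈ range r, 1 / ((2 : ℝ) ^ (s + 1) - 1)

/-- The sizes `0, 1, 3, 7, 15, ...`. -/
def kk (r : ℕ) : ℕ := 2 ^ r - 1

lemma kk_succ (r : ℕ) : kk (r + 1) = 2 * kk r + 1 := by
  unfold kk
  have := Nat.one_le_two_pow (n := r)
  rw [pow_succ]
  omega

lemma kk_pos (r : ℕ) : 1 ≤ kk (r + 1) := by rw [kk_succ]; omega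

lemma two_pow_sub_pos (s : ℕ) : (0 : ℝ) < (2 : ℝ) ^ (s + 1) - 1 := by
  have : (1 : ℝ) < (2 : ℝ) ^ (s + 1) := one_lt_pow₀ (by norm_num) (by omega)
  linarith

lemma lam_pos (r : ℕ) : 0 < lam r :=
  prod_pos fun s _ => one_div_pos.2 (two_pow_sub_pos s)

lemma kk_cast (r : ℕ) : (kk (r + 1) : ℝ) = (2 : ℝ) ^ (r + 1) - 1 := by
  unfold kk
  rw [Nat.cast_sub Nat.one_le_two_pow]
  push_cast
  ring

lemma lam_succ (r : ℕ) : lam (r + 1) * (kk (r + 1) : ℝ) = lam r := by
  rw [kk_cast]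
  unfold lam
  rw [prod_range_succ]
  have := (two_pow_sub_pos r).ne'
  field_simp

lemma lam_one : lam 1 = 1 := by
  unfold lam
  simp
  norm_num

/-- The cut inequality. -/
lemma cut_ineq (R X H p q : ℕ) (lost : ℕ → ℕ) (hX : H ≤ X) (hpq : H ≤ p + q + 2)
    (hl : ∀ k, 1 ≤ k → lost k + (p + 1 - k) + (q + 1 - k) ≤ k * (H + 1 - k)) :
    ∑ r ∈ range R, lam (r + 1) * (lost (kk (r + 1)) : ℝ) ≤ X := by
  have key : ∀ R : ℕ, ∑ r ∈ range (R + 1), lam (r + 1) * (lost (kk (r + 1)) : ℝ) ≤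
      (lost 1 : ℝ) + ((H - 2 : ℕ) : ℝ) - lam (R + 1) * ((H + 1 - kk (R + 2) : ℕ) : ℝ) := by
    intro R
    induction R with
    | zero =>
      rw [sum_range_one]
      have h1 : kk (0 + 1) = 1 := rfl
      have h2 : kk (0 + 2) = 3 := rfl
      rw [h1, h2, zero_add, lam_one]
      have : H + 1 - 3 = H - 2 := by omega
      rw [this]
      linarith
    | succ R ih =>
      rw [sum_range_succ]
      have e1 := kk_succ (R + 2)
      have h3 := hl (kk (R + 2)) (kk_pos (R + 1))
      have h4 : H + 1 - kk (R + 3) ≤ (p + 1 - kk (R + 2)) + (q + 1 - kk (R + 2)) := by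
        rw [show R + 3 = R + 2 + 1 from rfl, e1]
        omega
      have h5 : lost (kk (R + 2)) + (H + 1 - kk (R + 3)) ≤
          kk (R + 2) * (H + 1 - kk (R + 2)) := by omega
      have h6 : (lost (kk (R + 2)) : ℝ) + ((H + 1 - kk (R + 3) : ℕ) : ℝ) ≤
          (kk (R + 2) : ℝ) * ((H + 1 - kk (R + 2) : ℕ) : ℝ) := by exact_mod_cast h5
      have h7 := mul_le_mul_of_nonneg_left h6 (lam_pos (R + 2)).le
      have h8 : lam (R + 2) * ((kk (R + 2) : ℝ) * ((H + 1 - kk (R + 2) : ℕ) : ℝ)) =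
          lam (R + 1) * ((H + 1 - kk (R + 2) : ℕ) : ℝ) := by
        rw [← mul_assoc, lam_succ]
      rw [h8, mul_add] at h7
      have e2 : R + 1 + 1 = R + 2 := rfl
      have e3 : R + 1 + 2 = R + 3 := rfl
      rw [e2, e3]
      linarith
  have h1 := hl 1 le_rfl
  have h2 : lost 1 + (H - 2) ≤ X := by omega
  have h3 : (lost 1 : ℝ) + ((H - 2 : ℕ) : ℝ) ≤ X := by exact_mod_cast h2
  rcases R with _ | R
  · simp
  · refine (key R).trans ?_
    have := mul_nonneg (lam_pos (R + 1)).le (Nat.cast_nonneg (α := ℝ) (H + 1 - kk (R + 2)))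
    linarith

/-- The sum of the weights is at least the product. -/
lemma lam_sum (N : ℕ) : ∏ k ∈ range N, (1 + 1 / (2 : ℝ) ^ (k + 1)) ≤ ∑ r ∈ range (N + 1), lam r := by
  have hstep : ∀ (R : ℕ) (x : ℝ), 0 ≤ x →
      (1 + x) * ∑ r ∈ range R, lam r * x ^ r ≤ ∑ r ∈ range (R + 1), lam r * (2 * x) ^ r := by
    intro R x hx
    have e1 : ∀ r : ℕ, lam (r + 1) * (2 * x) ^ (r + 1) =
        lam (r + 1) * x ^ (r + 1) + x * (lam r * x ^ r) := by
      intro r
      have h := lam_succ r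
      rw [kk_cast] at h
      have : lam r = lam (r + 1) * ((2 : ℝ) ^ (r + 1) - 1) := h.symm
      rw [this, mul_pow]
      ring
    rw [sum_range_succ']
    simp only [e1, pow_zero, mul_one]
    rw [sum_add_distrib, ← mul_sum]
    have e2 : ∑ r ∈ range (R + 1), lam r * x ^ r =
        ∑ r ∈ range R, lam (r + 1) * x ^ (r + 1) + lam 0 := by
      rw [sum_range_succ']
      simp
    have e3 : ∑ r ∈ range R, lam r * x ^ r ≤ ∑ r ∈ range (R + 1), lam r * x ^ r := by
      rw [sum_range_succ]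
      have := mul_nonneg (lam_pos R).le (pow_nonneg hx R)
      linarith
    linarith
  have main : ∀ (N R : ℕ) (x : ℝ), 0 ≤ x →
      (∏ k ∈ range N, (1 + x / (2 : ℝ) ^ (k + 1))) *
        ∑ r ∈ range (R + 1), lam r * (x / 2 ^ N) ^ r ≤
      ∑ r ∈ range (R + 1 + N), lam r * x ^ r := by
    intro N
    induction N with
    | zero => intro R x hx; simp
    | succ N ih =>
      intro R x hx
      rw [prod_range_succ]
      have h1 := hstep (R + 1) (x / 2 ^ (N + 1)) (by positivity)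
      have e : 2 * (x / 2 ^ (N + 1)) = x / 2 ^ N := by
        rw [pow_succ]
        field_simp
      rw [e] at h1
      have h2 := ih (R + 1) x hx
      have h3 : (0 : ℝ) ≤ ∏ k ∈ range N, (1 + x / (2 : ℝ) ^ (k + 1)) :=
        prod_nonneg fun k _ => by positivity
      have h4 := mul_le_mul_of_nonneg_left h1 h3
      have e4 : R + 1 + (N + 1) = R + 1 + 1 + N := by ring
      rw [e4]
      refine le_trans ?_ h2
      rw [← mul_assoc] at h4
      exact h4
  have h := main N 0 1 (by norm_num)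
  have e5 : ∑ r ∈ range (0 + 1), lam r * ((1 : ℝ) / 2 ^ N) ^ r = 1 := by
    simp [lam]
  rw [e5, mul_one] at h
  simpa [Nat.add_comm] using h

end Pool.Agent.Helper30.BSP
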