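import Mathlib

/-! Axis-aligned binary space partitions of sets of axis-aligned rectangles. -/

namespace Pool.Agent.Helper30.BSP

/-- An axis-aligned rectangle `[a1,b1] × [a2,b2]` with `a1 < b1` and `a2 < b2`. -/
structure Rect where
  a1 : ℝ
  b1 : ℝ
  a2 : ℝ
  b2 : ℝ
  lt1 : a1 < b1
  lt2 : a2 < b2

/-- The set of points of a rectangle. -/
def Rect.toSet (R : Rect) : Set (ℝ × ℝ) := Set.Icc R.a1 R.b1 ×ˢ Set.Icc R.a2 R.b2

/-- The recursive structure of an axis-aligned binary space partition: a leaf, a cut along the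
vertical line `x = c`, or a cut along the horizontal line `y = c`. -/
inductive Tree where
  | leaf : Tree
  | vert (c : ℝ) (l r : Tree) : Tree
  | horiz (c : ℝ) (l r : Tree) : Tree

/-- The rectangle `R` meets the cell `C` in its interior: the interiors of `R` and `C`
intersect. -/
def Meets (R : Rect) (C : Set (ℝ × ℝ)) : Prop := (interior R.toSet ∩ interior C).Nonempty

/-- `T` is an axis-aligned binary space partition of `S` inside the cell `C`: every cell that is
cut is cut by a line through its interior into two closed parts, and every leaf meets at most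
one element of `S` in its interior. -/
def IsBSP (S : Finset Rect) : Tree → Set (ℝ × ℝ) → Prop
  | .leaf, C => ∀ R ∈ S, ∀ R' ∈ S, Meets R C → Meets R' C → R = R'
  | .vert c l r, C =>
      (∃ p ∈ interior C, p.1 = c) ∧ IsBSP S l (C ∩ {p | p.1 ≤ c}) ∧ IsBSP S r (C ∩ {p | c ≤ p.1})
  | .horiz c l r, C =>
      (∃ p ∈ interior C, p.2 = c) ∧ IsBSP S l (C ∩ {p | p.2 ≤ c}) ∧ IsBSP S r (C ∩ {p | c ≤ p.2})

open Classical in
/-- The number of fragments: the number of pairs of an element `R` of `S` and a leaf cell
whose interiors intersect. -/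
noncomputable def size (S : Finset Rect) : Tree → Set (ℝ × ℝ) → ℕ
  | .leaf, C => (S.filter (fun R => Meets R C)).card
  | .vert c l r, C => size S l (C ∩ {p | p.1 ≤ c}) + size S r (C ∩ {p | c ≤ p.1})
  | .horiz c l r, C => size S l (C ∩ {p | p.2 ≤ c}) + size S r (C ∩ {p | c ≤ p.2})

end Pool.Agent.Helper30.BSP
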