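import Mathlib
import Pool.Agent.Helper30.BSP.Comb

/-! The rotated grid: squares, holes, arrays of holes, and the cut inequalities. -/

namespace Pool.Agent.Helper30.BSP

open Finset Classical

/-- The step of the grid. -/
noncomputable def KK (m : ℕ) : ℝ := (m : ℝ) + 2

lemma KK_def (m : ℕ) : KK m = (m : ℝ) + 2 := rfl

noncomputable def qa1 (m i j : ℕ) : ℝ := i * KK m - j + 1 / 4
noncomputable def qb1 (m i j : ℕ) : ℝ := i * KK m - j + KK m - 1 / 4
noncomputable def qa2 (m i j : ℕ) : ℝ := j * KK m + i + 1 / 4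
noncomputable def qb2 (m i j : ℕ) : ℝ := j * KK m + i + KK m - 1 / 4

noncomputable def ale (m k i j : ℕ) : ℝ := i * KK m - j - k + 3 / 4
noncomputable def ari (m k i j : ℕ) : ℝ := ((i : ℝ) + k - 1) * KK m - j + 5 / 4
noncomputable def abo (m i j : ℕ) : ℝ := j * KK m + i - 5 / 4
noncomputable def ato (m k i j : ℕ) : ℝ := ((j : ℝ) + k - 1) * KK m + i + k - 3 / 4

/-- The squares that meet the box. -/
noncomputable def S0 (m : ℕ) (x1 x2 y1 y2 : EReal) : Finset (ℕ × ℕ) :=
  (range m ×ˢ range m).filter fun p =>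
    x1 < (qb1 m p.1 p.2 : EReal) ∧ (qa1 m p.1 p.2 : EReal) < x2 ∧
    y1 < (qb2 m p.1 p.2 : EReal) ∧ (qa2 m p.1 p.2 : EReal) < y2

/-- The arrays of `k × k` holes inside the box. -/
noncomputable def SA (m k : ℕ) (x1 x2 y1 y2 : EReal) : Finset (ℕ × ℕ) :=
  (range m ×ˢ range m).filter fun p =>
    (1 ≤ p.1 ∧ 1 ≤ p.2 ∧ p.1 + k ≤ m ∧ p.2 + k ≤ m) ∧
    x1 < (ale m k p.1 p.2 : EReal) ∧ (ari m k p.1 p.2 : EReal) < x2 ∧
    y1 < (abo m p.1 p.2 : EReal) ∧ (ato m k p.1 p.2 : EReal) < y2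

/-- The potential. -/
noncomputable def Phi (m R : ℕ) (x1 x2 y1 y2 : EReal) : ℝ :=
  (S0 m x1 x2 y1 y2).card + ∑ r ∈ range R, lam (r + 1) * ((SA m (kk (r + 1)) x1 x2 y1 y2).card : ℝ)

lemma er_lt_of_lt_of_le {x : EReal} {a b : ℝ} (h : x < (a : EReal)) (hab : a ≤ b) :
    x < (b : EReal) := lt_of_lt_of_le h (EReal.coe_le_coe_iff.2 hab)

lemma er_lt_of_le_of_lt {x : EReal} {a b : ℝ} (hab : b ≤ a) (h : (a : EReal) < x) :
    (b : EReal) < x := lt_of_le_of_lt (EReal.coe_le_coe_iff.2 hab) h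

/-- The set of squares crossed by a vertical line. -/
noncomputable def XV (m : ℕ) (c : ℝ) (x1 x2 y1 y2 : EReal) : Finset (ℕ × ℕ) :=
  (S0 m x1 x2 y1 y2).filter fun p => qa1 m p.1 p.2 < c ∧ c < qb1 m p.1 p.2

/-- The set of arrays lost at a vertical line. -/
noncomputable def LV (m k : ℕ) (c : ℝ) (x1 x2 y1 y2 : EReal) : Finset (ℕ × ℕ) :=
  (SA m k x1 x2 y1 y2).filter fun p => ale m k p.1 p.2 ≤ c ∧ c ≤ ari m k p.1 p.2

/-- The set of squares crossed by a horizontal line. -/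
noncomputable def XH (m : ℕ) (c : ℝ) (x1 x2 y1 y2 : EReal) : Finset (ℕ × ℕ) :=
  (S0 m x1 x2 y1 y2).filter fun p => qa2 m p.1 p.2 < c ∧ c < qb2 m p.1 p.2

/-- The set of arrays lost at a horizontal line. -/
noncomputable def LH (m k : ℕ) (c : ℝ) (x1 x2 y1 y2 : EReal) : Finset (ℕ × ℕ) :=
  (SA m k x1 x2 y1 y2).filter fun p => abo m p.1 p.2 ≤ c ∧ c ≤ ato m k p.1 p.2

lemma KK_pos (m : ℕ) : 0 < KK m := by unfold KK; positivity

lemma q1_lt (m i j : ℕ) : qa1 m i j < qb1 m i j := by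
  unfold qa1 qb1; have : (0:ℝ) ≤ m := Nat.cast_nonneg m; rw [KK_def]; linarith

lemma q2_lt (m i j : ℕ) : qa2 m i j < qb2 m i j := by
  unfold qa2 qb2; have : (0:ℝ) ≤ m := Nat.cast_nonneg m; rw [KK_def]; linarith

lemma card_split (A : Finset (ℕ × ℕ)) (P Q : ℕ × ℕ → Prop) (h : ∀ p ∈ A, P p ∨ Q p) :
    A.card + (A.filter fun p => P p ∧ Q p).card = (A.filter P).card + (A.filter Q).card := by
  rw [← card_union_add_card_inter (s := A.filter P) (t := A.filter Q), ← filter_or,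
    ← filter_and, filter_true_of_mem h]

lemma S0_vert (m : ℕ) (c : ℝ) (x1 x2 y1 y2 : EReal) :
    (S0 m x1 x2 y1 y2).card + (XV m c x1 x2 y1 y2).card ≤
      (S0 m x1 c y1 y2).card + (S0 m c x2 y1 y2).card := by
  have e1 : (S0 m x1 x2 y1 y2).card + (XV m c x1 x2 y1 y2).card =
      ((S0 m x1 x2 y1 y2).filter fun p => qa1 m p.1 p.2 < c).card +
      ((S0 m x1 x2 y1 y2).filter fun p => c < qb1 m p.1 p.2).card := by
    unfold XV
    apply card_split
    intro p _
    by_contra hcon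
    push Not at hcon
    have := q1_lt m p.1 p.2
    linarith
  rw [e1]
  refine Nat.add_le_add (card_le_card ?_) (card_le_card ?_)
  · intro p hp
    unfold S0 at hp ⊢
    simp only [mem_filter] at hp ⊢
    refine ⟨hp.1.1, hp.1.2.1, EReal.coe_lt_coe_iff.2 hp.2, hp.1.2.2.2⟩
  · intro p hp
    unfold S0 at hp ⊢
    simp only [mem_filter] at hp ⊢
    exact ⟨hp.1.1, EReal.coe_lt_coe_iff.2 hp.2, hp.1.2.2.1, hp.1.2.2.2⟩

lemma S0_horiz (m : ℕ) (c : ℝ) (x1 x2 y1 y2 : EReal) :
    (S0 m x1 x2 y1 y2).card + (XH m c x1 x2 y1 y2).card ≤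
      (S0 m x1 x2 y1 c).card + (S0 m x1 x2 c y2).card := by
  have e1 : (S0 m x1 x2 y1 y2).card + (XH m c x1 x2 y1 y2).card =
      ((S0 m x1 x2 y1 y2).filter fun p => qa2 m p.1 p.2 < c).card +
      ((S0 m x1 x2 y1 y2).filter fun p => c < qb2 m p.1 p.2).card := by
    unfold XH
    apply card_split
    intro p _
    by_contra hcon
    push Not at hcon
    have := q2_lt m p.1 p.2
    linarith
  rw [e1]
  refine Nat.add_le_add (card_le_card ?_) (card_le_card ?_)
  · intro p hp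
    unfold S0 at hp ⊢
    simp only [mem_filter] at hp ⊢
    exact ⟨hp.1.1, hp.1.2.1, hp.1.2.2.1, hp.1.2.2.2.1, EReal.coe_lt_coe_iff.2 hp.2⟩
  · intro p hp
    unfold S0 at hp ⊢
    simp only [mem_filter] at hp ⊢
    exact ⟨hp.1.1, hp.1.2.1, hp.1.2.2.1, EReal.coe_lt_coe_iff.2 hp.2, hp.1.2.2.2.2⟩

lemma SA_vert (m k : ℕ) (c : ℝ) (x1 x2 y1 y2 : EReal) :
    (SA m k x1 x2 y1 y2).card ≤
      (SA m k x1 c y1 y2).card + (SA m k c x2 y1 y2).card + (LV m k c x1 x2 y1 y2).card := by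
  have hsub : SA m k x1 x2 y1 y2 ⊆
      (SA m k x1 c y1 y2 ∪ SA m k c x2 y1 y2) ∪ LV m k c x1 x2 y1 y2 := by
    intro p hp
    by_cases ha : c < ale m k p.1 p.2
    · refine mem_union_left _ (mem_union_right _ ?_)
      unfold SA at hp ⊢
      simp only [mem_filter] at hp ⊢
      exact ⟨hp.1, hp.2.1, EReal.coe_lt_coe_iff.2 ha, hp.2.2.2.1, hp.2.2.2.2⟩
    · by_cases hb : ari m k p.1 p.2 < c
      · refine mem_union_left _ (mem_union_left _ ?_)
        unfold SA at hp ⊢
        simp only [mem_filter] at hp ⊢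
        exact ⟨hp.1, hp.2.1, hp.2.2.1, EReal.coe_lt_coe_iff.2 hb, hp.2.2.2.2⟩
      · refine mem_union_right _ ?_
        unfold LV
        rw [mem_filter]
        exact ⟨hp, not_lt.1 ha, not_lt.1 hb⟩
  refine (card_le_card hsub).trans ((card_union_le _ _).trans ?_)
  exact Nat.add_le_add_right (card_union_le _ _) _

lemma SA_horiz (m k : ℕ) (c : ℝ) (x1 x2 y1 y2 : EReal) :
    (SA m k x1 x2 y1 y2).card ≤
      (SA m k x1 x2 y1 c).card + (SA m k x1 x2 c y2).card + (LH m k c x1 x2 y1 y2).card := by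
  have hsub : SA m k x1 x2 y1 y2 ⊆
      (SA m k x1 x2 y1 c ∪ SA m k x1 x2 c y2) ∪ LH m k c x1 x2 y1 y2 := by
    intro p hp
    by_cases ha : c < abo m p.1 p.2
    · refine mem_union_left _ (mem_union_right _ ?_)
      unfold SA at hp ⊢
      simp only [mem_filter] at hp ⊢
      exact ⟨hp.1, hp.2.1, hp.2.2.1, hp.2.2.2.1, EReal.coe_lt_coe_iff.2 ha, hp.2.2.2.2.2⟩
    · by_cases hb : ato m k p.1 p.2 < c
      · refine mem_union_left _ (mem_union_left _ ?_)
        unfold SA at hp ⊢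
        simp only [mem_filter] at hp ⊢
        exact ⟨hp.1, hp.2.1, hp.2.2.1, hp.2.2.2.1, hp.2.2.2.2.1, EReal.coe_lt_coe_iff.2 hb⟩
      · refine mem_union_right _ ?_
        unfold LH
        rw [mem_filter]
        exact ⟨hp, not_lt.1 ha, not_lt.1 hb⟩
  refine (card_le_card hsub).trans ((card_union_le _ _).trans ?_)
  exact Nat.add_le_add_right (card_union_le _ _) _

/-- The combinatorial data of a cut. -/
def CutData (X : ℕ) (lost : ℕ → ℕ) : Prop :=
  ∃ H p q : ℕ, H ≤ X ∧ H ≤ p + q + 2 ∧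
    ∀ k, 1 ≤ k → lost k + (p + 1 - k) + (q + 1 - k) ≤ k * (H + 1 - k)

lemma cutData_triv (X : ℕ) (lost : ℕ → ℕ) (h : ∀ k, 1 ≤ k → lost k = 0) : CutData X lost :=
  ⟨0, 0, 0, by omega, by omega, fun k hk => by rw [h k hk]; omega⟩

lemma vert_data (m : ℕ) (c : ℝ) (x1 x2 y1 y2 : EReal) (h1 : x1 < c) (h2 : (c : EReal) < x2) :
    CutData (XV m c x1 x2 y1 y2).card (fun k => (LV m k c x1 x2 y1 y2).card) := by
  have hK := KK_def m
  have hKp := KK_pos m
  by_cases hc : c < 1
  · apply cutData_triv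
    intro k hk
    rw [card_eq_zero, eq_empty_iff_forall_notMem]
    intro p hp
    unfold LV SA at hp
    simp only [mem_filter, mem_product, mem_range] at hp
    obtain ⟨⟨⟨hp1, hp2⟩, ⟨hi, hj, hik, hjk⟩, -⟩, ha, -⟩ := hp
    unfold ale at ha
    have a1 : (1 : ℝ) ≤ p.1 := by exact_mod_cast hi
    have a2 : ((p.2 : ℝ) + k) ≤ m := by exact_mod_cast hjk
    have a3 : (1 : ℝ) * KK m ≤ p.1 * KK m := mul_le_mul_of_nonneg_right a1 hKp.le
    linarith
  push Not at hc
  obtain ⟨I, hI⟩ : ∃ I, I = Nat.floor ((c - 1) / KK m) + 1 := ⟨_, rfl⟩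
  have hIr : (I : ℝ) = (Nat.floor ((c - 1) / KK m) : ℝ) + 1 := by rw [hI]; push_cast; ring
  have hI1 : 1 ≤ I := by omega
  have b1 : ((I : ℝ) - 1) * KK m + 1 ≤ c := by
    have h := Nat.floor_le (div_nonneg (by linarith : (0 : ℝ) ≤ c - 1) hKp.le)
    rw [le_div_iff₀ hKp] at h
    rw [hIr]
    linarith
  have b2 : c < (I : ℝ) * KK m + 1 := by
    have h := Nat.lt_floor_add_one ((c - 1) / KK m)
    rw [div_lt_iff₀ hKp, ← hIr] at h
    linarith
  have hidx : ∀ k, 1 ≤ k → ∀ p ∈ LV m k c x1 x2 y1 y2, p.1 ≤ I ∧ I + 1 ≤ p.1 + k := by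
    intro k hk p hp
    unfold LV SA at hp
    simp only [mem_filter, mem_product, mem_range] at hp
    obtain ⟨⟨⟨hp1, hp2⟩, ⟨hi, hj, hik, hjk⟩, -⟩, ha, hb⟩ := hp
    unfold ale at ha
    unfold ari at hb
    have a2 : ((p.2 : ℝ) + k) ≤ m := by exact_mod_cast hjk
    have a4 : (1 : ℝ) ≤ p.2 := by exact_mod_cast hj
    constructor
    · by_contra hcon
      have a1 : (I : ℝ) + 1 ≤ p.1 := by exact_mod_cast (show I + 1 ≤ p.1 by omega)
      have a3 : ((I : ℝ) + 1) * KK m ≤ p.1 * KK m := mul_le_mul_of_nonneg_right a1 hKp.le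
      linarith
    · by_contra hcon
      have a1 : (p.1 : ℝ) + k ≤ I := by exact_mod_cast (show p.1 + k ≤ I by omega)
      have a3 : ((p.1 : ℝ) + k - 1) * KK m ≤ ((I : ℝ) - 1) * KK m :=
        mul_le_mul_of_nonneg_right (by linarith) hKp.le
      linarith
  by_cases hIm : m ≤ I
  · apply cutData_triv
    intro k hk
    rw [card_eq_zero, eq_empty_iff_forall_notMem]
    intro p hp
    have h := hidx k hk p hp
    unfold LV SA at hp
    simp only [mem_filter, mem_product, mem_range] at hp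
    omega
  push Not at hIm
  obtain ⟨Hs, hHs⟩ : ∃ Hs : Finset ℕ, Hs = (range m).filter (fun j : ℕ => 1 ≤ j ∧
      y1 < ((j * KK m + I - 5 / 4 : ℝ) : EReal) ∧ ((j * KK m + I + 1 / 4 : ℝ) : EReal) < y2) :=
    ⟨_, rfl⟩
  have mHs : ∀ j, j ∈ Hs ↔ j < m ∧ 1 ≤ j ∧
      y1 < ((j * KK m + I - 5 / 4 : ℝ) : EReal) ∧
      ((j * KK m + I + 1 / 4 : ℝ) : EReal) < y2 := by
    intro j; rw [hHs, mem_filter, mem_range]
  obtain ⟨Lo, hLo⟩ : ∃ Lo : Finset ℕ, Lo = Hs.filter (fun j : ℕ => c < I * KK m - j - 1 / 4) :=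
    ⟨_, rfl⟩
  obtain ⟨Hi, hHi⟩ : ∃ Hi : Finset ℕ, Hi = Hs.filter (fun j : ℕ => I * KK m - j + 5 / 4 < c) :=
    ⟨_, rfl⟩
  have cmul : ∀ a b : ℕ, a ≤ b → (a : ℝ) * KK m ≤ b * KK m := fun a b hab =>
    mul_le_mul_of_nonneg_right (by exact_mod_cast hab) hKp.le
  have cH : Conv Hs := by
    intro a ha b hb t hat htb
    rw [mHs] at ha hb ⊢
    refine ⟨by omega, by omega, ?_, ?_⟩
    · exact er_lt_of_lt_of_le ha.2.2.1 (by have := cmul a t hat; linarith)
    · exact er_lt_of_le_of_lt (by have := cmul t b htb; linarith) hb.2.2.2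
  have cL : Conv Lo := by
    intro a ha b hb t hat htb
    rw [hLo, mem_filter] at ha hb ⊢
    refine ⟨cH a ha.1 b hb.1 t hat htb, ?_⟩
    have : (t : ℝ) ≤ b := by exact_mod_cast htb
    linarith [hb.2]
  have cU : Conv Hi := by
    intro a ha b hb t hat htb
    rw [hHi, mem_filter] at ha hb ⊢
    refine ⟨cH a ha.1 b hb.1 t hat htb, ?_⟩
    have : (a : ℝ) ≤ t := by exact_mod_cast hat
    linarith [ha.2]
  refine ⟨Hs.card, Lo.card, Hi.card, ?_, ?_, ?_⟩
  · -- crossed squares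
    apply card_le_card_of_injOn (fun j : ℕ =>
      if (I : ℝ) * KK m - (j : ℝ) + 1 / 4 < c then (I, j) else (I - 1, j - 1))
    · intro j hj
      have hj' := (mHs j).1 hj
      have hj1 : (1 : ℝ) ≤ j := by exact_mod_cast hj'.2.1
      have hjm : (j : ℝ) ≤ m := by exact_mod_cast hj'.1.le
      simp only
      split_ifs with hcase
      · unfold XV S0
        simp only [coe_filter, mem_filter, mem_product, mem_range, Set.mem_ofPred_eq]
        unfold qa1 qb1 qa2 qb2
        refine ⟨⟨⟨hIm, hj'.1⟩, ?_, ?_, ?_, ?_⟩, ?_, ?_⟩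
        · exact h1.trans (EReal.coe_lt_coe_iff.2 (by linarith))
        · exact lt_trans (EReal.coe_lt_coe_iff.2 (by linarith)) h2
        · exact er_lt_of_lt_of_le hj'.2.2.1 (by linarith)
        · exact hj'.2.2.2
        · linarith
        · linarith
      · push Not at hcase
        have eI : ((I - 1 : ℕ) : ℝ) = (I : ℝ) - 1 := by rw [Nat.cast_sub hI1]; simp
        have ej : ((j - 1 : ℕ) : ℝ) = (j : ℝ) - 1 := by rw [Nat.cast_sub hj'.2.1]; simp
        unfold XV S0
        simp only [coe_filter, mem_filter, mem_product, mem_range, Set.mem_ofPred_eq]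
        unfold qa1 qb1 qa2 qb2
        rw [eI, ej]
        refine ⟨⟨⟨by omega, by omega⟩, ?_, ?_, ?_, ?_⟩, ?_, ?_⟩
        · exact h1.trans (EReal.coe_lt_coe_iff.2 (by linarith))
        · exact lt_trans (EReal.coe_lt_coe_iff.2 (by linarith)) h2
        · exact er_lt_of_lt_of_le hj'.2.2.1 (by linarith)
        · exact er_lt_of_le_of_lt (by linarith) hj'.2.2.2
        · linarith
        · linarith
    · intro a ha b hb hab
      have ha' := (mHs a).1 ha
      have hb' := (mHs b).1 hb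
      simp only at hab
      split_ifs at hab <;> simp only [Prod.mk.injEq] at hab <;> omega
  · -- at most two touched holes
    have hsub : (Hs \ (Lo ∪ Hi)).card ≤ 2 := by
      rcases (Hs \ (Lo ∪ Hi)).eq_empty_or_nonempty with h | h
      · rw [h]; simp
      · obtain ⟨a, ha⟩ : ∃ a, a = (Hs \ (Lo ∪ Hi)).min' h := ⟨_, rfl⟩
        have haM : a ∈ Hs \ (Lo ∪ Hi) := ha ▸ min'_mem _ h
        have : Hs \ (Lo ∪ Hi) ⊆ {a, a + 1} := by
          intro t ht
          have hat : a ≤ t := ha ▸ min'_le _ t ht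
          rw [mem_sdiff, mem_union, hLo, hHi, mem_filter, mem_filter] at ht haM
          have t1 := ht.2
          have a1 := haM.2
          push Not at t1 a1
          have t2 := t1.1 ht.1
          have t3 := t1.2 ht.1
          have a2 := a1.1 haM.1
          have a3 := a1.2 haM.1
          rw [mem_insert, mem_singleton]
          by_contra hcon
          have : (a : ℝ) + 2 ≤ t := by exact_mod_cast (show a + 2 ≤ t by omega)
          linarith
        refine (card_le_card this).trans (card_le_two)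
    have h3 : Hs ⊆ (Lo ∪ Hi) ∪ (Hs \ (Lo ∪ Hi)) := by
      intro t ht
      by_cases h : t ∈ Lo ∪ Hi
      · exact mem_union_left _ h
      · exact mem_union_right _ (mem_sdiff.2 ⟨ht, h⟩)
    have := card_le_card h3
    have h4 := card_union_le (Lo ∪ Hi) (Hs \ (Lo ∪ Hi))
    have h5 := card_union_le Lo Hi
    omega
  · intro k hk
    apply lost_bound hk cH cL cU (by rw [hLo]; exact filter_subset _ _)
      (by rw [hHi]; exact filter_subset _ _)
    · intro j hj hj2
      rw [hLo, mem_filter] at hj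
      rw [hHi, mem_filter] at hj2
      linarith [hj.2, hj2.2]
    · intro p hp
      obtain ⟨i1, i2⟩ := hidx k hk p hp
      refine ⟨i1, i2, fun t ht => ?_⟩
      unfold LV SA at hp
      simp only [mem_filter, mem_product, mem_range] at hp
      obtain ⟨⟨⟨hp1, hp2⟩, ⟨hi, hj, hik, hjk⟩, -, -, hbo, hto⟩, ha, hb⟩ := hp
      unfold abo at hbo
      unfold ato at hto
      have c1 : (p.1 : ℝ) ≤ I := by exact_mod_cast i1
      have c2 : (I : ℝ) + 1 ≤ p.1 + k := by exact_mod_cast i2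
      have c3 : (t : ℝ) + 1 ≤ k := by exact_mod_cast ht
      have c4 : (0 : ℝ) ≤ t := Nat.cast_nonneg t
      rw [mHs]
      refine ⟨by omega, by omega, ?_, ?_⟩
      · refine er_lt_of_lt_of_le hbo ?_
        have := cmul p.2 (p.2 + t) (by omega)
        linarith
      · refine er_lt_of_le_of_lt ?_ hto
        push_cast
        have : ((p.2 : ℝ) + t) * KK m ≤ ((p.2 : ℝ) + k - 1) * KK m :=
          mul_le_mul_of_nonneg_right (by linarith) hKp.le
        linarith
    · intro p hp hpI hwin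
      have h := hwin (k - 1) (by omega)
      rw [hLo, mem_filter] at h
      unfold LV at hp
      rw [mem_filter] at hp
      have ha := hp.2.1
      unfold ale at ha
      have h3 := h.2
      rw [hpI] at ha
      rw [Nat.cast_add, Nat.cast_sub hk] at h3
      simp only [Nat.cast_one] at h3
      linarith
    · intro p hp hpI hwin
      have h := hwin 0 (by omega)
      rw [hHi, mem_filter] at h
      unfold LV at hp
      rw [mem_filter] at hp
      have hb := hp.2.2
      unfold ari at hb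
      have h3 := h.2
      have hpI' : (p.1 : ℝ) + k = I + 1 := by exact_mod_cast hpI
      rw [hpI'] at hb
      rw [add_zero] at h3
      rw [show ((I : ℝ) + 1 - 1) = I by ring] at hb
      linarith

lemma horiz_data (m : ℕ) (c : ℝ) (x1 x2 y1 y2 : EReal) (h1 : y1 < c) (h2 : (c : EReal) < y2) :
    CutData (XH m c x1 x2 y1 y2).card (fun k => (LH m k c x1 x2 y1 y2).card) := by
  have hK := KK_def m
  have hKp := KK_pos m
  by_cases hc : c < m
  · apply cutData_triv
    intro k hk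
    rw [card_eq_zero, eq_empty_iff_forall_notMem]
    intro p hp
    unfold LH SA at hp
    simp only [mem_filter, mem_product, mem_range] at hp
    obtain ⟨⟨⟨hp1, hp2⟩, ⟨hi, hj, hik, hjk⟩, -⟩, ha, -⟩ := hp
    unfold abo at ha
    have a1 : (1 : ℝ) ≤ p.2 := by exact_mod_cast hj
    have a2 : (1 : ℝ) ≤ p.1 := by exact_mod_cast hi
    have a3 : (1 : ℝ) * KK m ≤ p.2 * KK m := mul_le_mul_of_nonneg_right a1 hKp.le
    linarith
  push Not at hc
  obtain ⟨J, hJ⟩ : ∃ J, J = Nat.floor ((c - m) / KK m) + 1 := ⟨_, rfl⟩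
  have hJr : (J : ℝ) = (Nat.floor ((c - m) / KK m) : ℝ) + 1 := by rw [hJ]; push_cast; ring
  have hJ1 : 1 ≤ J := by omega
  have b1 : ((J : ℝ) - 1) * KK m + m ≤ c := by
    have h := Nat.floor_le (div_nonneg (by linarith : (0 : ℝ) ≤ c - m) hKp.le)
    rw [le_div_iff₀ hKp] at h
    rw [hJr]
    linarith
  have b2 : c < (J : ℝ) * KK m + m := by
    have h := Nat.lt_floor_add_one ((c - m) / KK m)
    rw [div_lt_iff₀ hKp, ← hJr] at h
    linarith
  have hidx : ∀ k, 1 ≤ k → ∀ p ∈ LH m k c x1 x2 y1 y2, p.2 ≤ J ∧ J + 1 ≤ p.2 + k := by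
    intro k hk p hp
    unfold LH SA at hp
    simp only [mem_filter, mem_product, mem_range] at hp
    obtain ⟨⟨⟨hp1, hp2⟩, ⟨hi, hj, hik, hjk⟩, -⟩, ha, hb⟩ := hp
    unfold abo at ha
    unfold ato at hb
    have a2 : ((p.1 : ℝ) + k) ≤ m := by exact_mod_cast hik
    have a4 : (1 : ℝ) ≤ p.1 := by exact_mod_cast hi
    constructor
    · by_contra hcon
      have a1 : (J : ℝ) + 1 ≤ p.2 := by exact_mod_cast (show J + 1 ≤ p.2 by omega)
      have a3 : ((J : ℝ) + 1) * KK m ≤ p.2 * KK m := mul_le_mul_of_nonneg_right a1 hKp.le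
      linarith
    · by_contra hcon
      have a1 : (p.2 : ℝ) + k ≤ J := by exact_mod_cast (show p.2 + k ≤ J by omega)
      have a3 : ((p.2 : ℝ) + k - 1) * KK m ≤ ((J : ℝ) - 1) * KK m :=
        mul_le_mul_of_nonneg_right (by linarith) hKp.le
      linarith
  by_cases hJm : m ≤ J
  · apply cutData_triv
    intro k hk
    rw [card_eq_zero, eq_empty_iff_forall_notMem]
    intro p hp
    have h := hidx k hk p hp
    unfold LH SA at hp
    simp only [mem_filter, mem_product, mem_range] at hp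
    omega
  push Not at hJm
  obtain ⟨Hs, hHs⟩ : ∃ Hs : Finset ℕ, Hs = (range m).filter (fun j : ℕ => 1 ≤ j ∧
      x1 < ((j * KK m - J - 1 / 4 : ℝ) : EReal) ∧ ((j * KK m - J + 5 / 4 : ℝ) : EReal) < x2) :=
    ⟨_, rfl⟩
  have mHs : ∀ j, j ∈ Hs ↔ j < m ∧ 1 ≤ j ∧
      x1 < ((j * KK m - J - 1 / 4 : ℝ) : EReal) ∧
      ((j * KK m - J + 5 / 4 : ℝ) : EReal) < x2 := by
    intro j; rw [hHs, mem_filter, mem_range]
  obtain ⟨Lo, hLo⟩ : ∃ Lo : Finset ℕ, Lo = Hs.filter (fun j : ℕ => c < J * KK m + j - 5 / 4) :=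
    ⟨_, rfl⟩
  obtain ⟨Hi, hHi⟩ : ∃ Hi : Finset ℕ, Hi = Hs.filter (fun j : ℕ => J * KK m + j + 1 / 4 < c) :=
    ⟨_, rfl⟩
  have cmul : ∀ a b : ℕ, a ≤ b → (a : ℝ) * KK m ≤ b * KK m := fun a b hab =>
    mul_le_mul_of_nonneg_right (by exact_mod_cast hab) hKp.le
  have cH : Conv Hs := by
    intro a ha b hb t hat htb
    rw [mHs] at ha hb ⊢
    refine ⟨by omega, by omega, ?_, ?_⟩
    · exact er_lt_of_lt_of_le ha.2.2.1 (by have := cmul a t hat; linarith)
    · exact er_lt_of_le_of_lt (by have := cmul t b htb; linarith) hb.2.2.2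
  have cL : Conv Lo := by
    intro a ha b hb t hat htb
    rw [hLo, mem_filter] at ha hb ⊢
    refine ⟨cH a ha.1 b hb.1 t hat htb, ?_⟩
    have : (a : ℝ) ≤ t := by exact_mod_cast hat
    linarith [ha.2]
  have cU : Conv Hi := by
    intro a ha b hb t hat htb
    rw [hHi, mem_filter] at ha hb ⊢
    refine ⟨cH a ha.1 b hb.1 t hat htb, ?_⟩
    have : (t : ℝ) ≤ b := by exact_mod_cast htb
    linarith [hb.2]
  refine ⟨Hs.card, Lo.card, Hi.card, ?_, ?_, ?_⟩
  · -- crossed squares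
    apply card_le_card_of_injOn (fun j : ℕ =>
      if c < (J : ℝ) * KK m + (j : ℝ) - 1 / 4 then (j, J - 1) else (j - 1, J))
    · intro j hj
      have hj' := (mHs j).1 hj
      have hj1 : (1 : ℝ) ≤ j := by exact_mod_cast hj'.2.1
      have hjm : (j : ℝ) + 1 ≤ m := by exact_mod_cast hj'.1
      have eJ : ((J - 1 : ℕ) : ℝ) = (J : ℝ) - 1 := by rw [Nat.cast_sub hJ1]; simp
      have ej : ((j - 1 : ℕ) : ℝ) = (j : ℝ) - 1 := by rw [Nat.cast_sub hj'.2.1]; simp
      simp only
      split_ifs with hcase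
      · unfold XH S0
        simp only [coe_filter, mem_filter, mem_product, mem_range, Set.mem_ofPred_eq]
        unfold qa1 qb1 qa2 qb2
        rw [eJ]
        refine ⟨⟨⟨hj'.1, by omega⟩, ?_, ?_, ?_, ?_⟩, ?_, ?_⟩
        · exact er_lt_of_lt_of_le hj'.2.2.1 (by linarith)
        · exact er_lt_of_le_of_lt (by linarith) hj'.2.2.2
        · exact h1.trans (EReal.coe_lt_coe_iff.2 (by linarith))
        · exact lt_trans (EReal.coe_lt_coe_iff.2 (by linarith)) h2
        · linarith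
        · linarith
      · push Not at hcase
        unfold XH S0
        simp only [coe_filter, mem_filter, mem_product, mem_range, Set.mem_ofPred_eq]
        unfold qa1 qb1 qa2 qb2
        rw [ej]
        refine ⟨⟨⟨by omega, hJm⟩, ?_, ?_, ?_, ?_⟩, ?_, ?_⟩
        · exact er_lt_of_lt_of_le hj'.2.2.1 (by linarith)
        · exact er_lt_of_le_of_lt (by linarith) hj'.2.2.2
        · exact h1.trans (EReal.coe_lt_coe_iff.2 (by linarith))
        · exact lt_trans (EReal.coe_lt_coe_iff.2 (by linarith)) h2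
        · linarith
        · linarith
    · intro a ha b hb hab
      have ha' := (mHs a).1 ha
      have hb' := (mHs b).1 hb
      simp only at hab
      split_ifs at hab <;> simp only [Prod.mk.injEq] at hab <;> omega
  · -- at most two touched holes
    have hsub : (Hs \ (Lo ∪ Hi)).card ≤ 2 := by
      rcases (Hs \ (Lo ∪ Hi)).eq_empty_or_nonempty with h | h
      · rw [h]; simp
      · obtain ⟨a, ha⟩ : ∃ a, a = (Hs \ (Lo ∪ Hi)).min' h := ⟨_, rfl⟩
        have haM : a ∈ Hs \ (Lo ∪ Hi) := ha ▸ min'_mem _ h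
        have : Hs \ (Lo ∪ Hi) ⊆ {a, a + 1} := by
          intro t ht
          have hat : a ≤ t := ha ▸ min'_le _ t ht
          rw [mem_sdiff, mem_union, hLo, hHi, mem_filter, mem_filter] at ht haM
          have t1 := ht.2
          have a1 := haM.2
          push Not at t1 a1
          have t2 := t1.1 ht.1
          have t3 := t1.2 ht.1
          have a2 := a1.1 haM.1
          have a3 := a1.2 haM.1
          rw [mem_insert, mem_singleton]
          by_contra hcon
          have : (a : ℝ) + 2 ≤ t := by exact_mod_cast (show a + 2 ≤ t by omega)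
          linarith
        refine (card_le_card this).trans (card_le_two)
    have h3 : Hs ⊆ (Lo ∪ Hi) ∪ (Hs \ (Lo ∪ Hi)) := by
      intro t ht
      by_cases h : t ∈ Lo ∪ Hi
      · exact mem_union_left _ h
      · exact mem_union_right _ (mem_sdiff.2 ⟨ht, h⟩)
    have := card_le_card h3
    have h4 := card_union_le (Lo ∪ Hi) (Hs \ (Lo ∪ Hi))
    have h5 := card_union_le Lo Hi
    omega
  · intro k hk
    have hsw : ((LH m k c x1 x2 y1 y2).image Prod.swap).card = (LH m k c x1 x2 y1 y2).card :=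
      card_image_of_injective _ Prod.swap_injective
    show (LH m k c x1 x2 y1 y2).card + (Lo.card + 1 - k) + (Hi.card + 1 - k) ≤
      k * (Hs.card + 1 - k)
    rw [← hsw]
    apply lost_bound hk (I := J) cH cL cU (by rw [hLo]; exact filter_subset _ _)
      (by rw [hHi]; exact filter_subset _ _)
    · intro j hj hj2
      rw [hLo, mem_filter] at hj
      rw [hHi, mem_filter] at hj2
      linarith [hj.2, hj2.2]
    · intro p' hp'
      rw [mem_image] at hp'
      obtain ⟨p, hp, rfl⟩ := hp'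
      obtain ⟨i1, i2⟩ := hidx k hk p hp
      refine ⟨i1, i2, fun t ht => ?_⟩
      unfold LH SA at hp
      simp only [mem_filter, mem_product, mem_range] at hp
      obtain ⟨⟨⟨hp1, hp2⟩, ⟨hi, hj, hik, hjk⟩, hle, hri, -, -⟩, ha, hb⟩ := hp
      unfold ale at hle
      unfold ari at hri
      have c1 : (p.2 : ℝ) ≤ J := by exact_mod_cast i1
      have c2 : (J : ℝ) + 1 ≤ p.2 + k := by exact_mod_cast i2
      have c3 : (t : ℝ) + 1 ≤ k := by exact_mod_cast ht
      have c4 : (0 : ℝ) ≤ t := Nat.cast_nonneg t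
      rw [Prod.snd_swap, mHs]
      refine ⟨by omega, by omega, ?_, ?_⟩
      · refine er_lt_of_lt_of_le hle ?_
        have := cmul p.1 (p.1 + t) (by omega)
        linarith
      · refine er_lt_of_le_of_lt ?_ hri
        push_cast
        have : ((p.1 : ℝ) + t) * KK m ≤ ((p.1 : ℝ) + k - 1) * KK m :=
          mul_le_mul_of_nonneg_right (by linarith) hKp.le
        linarith
    · intro p' hp' hpI hwin
      rw [mem_image] at hp'
      obtain ⟨p, hp, rfl⟩ := hp'
      rw [Prod.fst_swap] at hpI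
      have h := hwin 0 (by omega)
      rw [Prod.snd_swap, hLo, mem_filter] at h
      unfold LH at hp
      rw [mem_filter] at hp
      have ha := hp.2.1
      unfold abo at ha
      have h3 := h.2
      rw [hpI] at ha
      rw [add_zero] at h3
      linarith
    · intro p' hp' hpI hwin
      rw [mem_image] at hp'
      obtain ⟨p, hp, rfl⟩ := hp'
      rw [Prod.fst_swap] at hpI
      have h := hwin (k - 1) (by omega)
      rw [Prod.snd_swap, hHi, mem_filter] at h
      unfold LH at hp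
      rw [mem_filter] at hp
      have hb := hp.2.2
      unfold ato at hb
      have h3 := h.2
      have hpI' : (p.2 : ℝ) + k = J + 1 := by exact_mod_cast hpI
      rw [hpI'] at hb
      rw [Nat.cast_add, Nat.cast_sub hk] at h3
      simp only [Nat.cast_one] at h3
      rw [show ((J : ℝ) + 1 - 1) = J by ring] at hb
      linarith

/-- A vertical cut does not lose potential. -/
lemma Phi_vert (m R : ℕ) (c : ℝ) (x1 x2 y1 y2 : EReal) (h1 : x1 < c) (h2 : (c : EReal) < x2) :
    Phi m R x1 x2 y1 y2 ≤ Phi m R x1 c y1 y2 + Phi m R c x2 y1 y2 := by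
  obtain ⟨H, p, q, d1, d2, d3⟩ := vert_data m c x1 x2 y1 y2 h1 h2
  have key := cut_ineq R _ H p q _ d1 d2 d3
  have e0 := S0_vert m c x1 x2 y1 y2
  have e0' : ((S0 m x1 x2 y1 y2).card : ℝ) + (XV m c x1 x2 y1 y2).card ≤
      (S0 m x1 c y1 y2).card + (S0 m c x2 y1 y2).card := by exact_mod_cast e0
  have e1 : ∑ r ∈ range R, lam (r + 1) * ((SA m (kk (r + 1)) x1 x2 y1 y2).card : ℝ) ≤
      ∑ r ∈ range R, lam (r + 1) * ((SA m (kk (r + 1)) x1 c y1 y2).card : ℝ) +
      ∑ r ∈ range R, lam (r + 1) * ((SA m (kk (r + 1)) c x2 y1 y2).card : ℝ) +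
      ∑ r ∈ range R, lam (r + 1) * ((LV m (kk (r + 1)) c x1 x2 y1 y2).card : ℝ) := by
    rw [← sum_add_distrib, ← sum_add_distrib]
    apply sum_le_sum
    intro r _
    rw [← mul_add, ← mul_add]
    apply mul_le_mul_of_nonneg_left _ (lam_pos (r + 1)).le
    exact_mod_cast SA_vert m (kk (r + 1)) c x1 x2 y1 y2
  unfold Phi
  linarith

/-- A horizontal cut does not lose potential. -/
lemma Phi_horiz (m R : ℕ) (c : ℝ) (x1 x2 y1 y2 : EReal) (h1 : y1 < c) (h2 : (c : EReal) < y2) :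
    Phi m R x1 x2 y1 y2 ≤ Phi m R x1 x2 y1 c + Phi m R x1 x2 c y2 := by
  obtain ⟨H, p, q, d1, d2, d3⟩ := horiz_data m c x1 x2 y1 y2 h1 h2
  have key := cut_ineq R _ H p q _ d1 d2 d3
  have e0 := S0_horiz m c x1 x2 y1 y2
  have e0' : ((S0 m x1 x2 y1 y2).card : ℝ) + (XH m c x1 x2 y1 y2).card ≤
      (S0 m x1 x2 y1 c).card + (S0 m x1 x2 c y2).card := by exact_mod_cast e0
  have e1 : ∑ r ∈ range R, lam (r + 1) * ((SA m (kk (r + 1)) x1 x2 y1 y2).card : ℝ) ≤
      ∑ r ∈ range R, lam (r + 1) * ((SA m (kk (r + 1)) x1 x2 y1 c).card : ℝ) +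
      ∑ r ∈ range R, lam (r + 1) * ((SA m (kk (r + 1)) x1 x2 c y2).card : ℝ) +
      ∑ r ∈ range R, lam (r + 1) * ((LH m (kk (r + 1)) c x1 x2 y1 y2).card : ℝ) := by
    rw [← sum_add_distrib, ← sum_add_distrib]
    apply sum_le_sum
    intro r _
    rw [← mul_add, ← mul_add]
    apply mul_le_mul_of_nonneg_left _ (lam_pos (r + 1)).le
    exact_mod_cast SA_horiz m (kk (r + 1)) c x1 x2 y1 y2
  unfold Phi
  linarith

end Pool.Agent.Helper30.BSP
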