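import Mathlib
import Pool.Agent.Helper30.BSP.Defs
import Pool.Agent.Helper30.BSP.Geo

/-! The lower bound for binary space partitions of the rotated grid. -/

namespace Pool.Agent.Helper30.BSP

open Finset Classical

/-- The interior of a cell. -/
def Box (x1 x2 y1 y2 : EReal) : Set (ℝ × ℝ) :=
  {p | x1 < (p.1 : EReal) ∧ (p.1 : EReal) < x2 ∧ y1 < (p.2 : EReal) ∧ (p.2 : EReal) < y2}

/-- The squares of the grid. -/
noncomputable def sq (m i j : ℕ) : Rect :=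
  ⟨qa1 m i j, qb1 m i j, qa2 m i j, qb2 m i j, q1_lt m i j, q2_lt m i j⟩

lemma interior_toSet (R : Rect) :
    interior R.toSet = Set.Ioo R.a1 R.b1 ×ˢ Set.Ioo R.a2 R.b2 := by
  unfold Rect.toSet
  rw [interior_prod_eq, interior_Icc, interior_Icc]

lemma meets_of (R : Rect) {C : Set (ℝ × ℝ)} {x1 x2 y1 y2 : EReal} (hC : interior C = Box x1 x2 y1 y2)
    (hx : x1 < x2) (hy : y1 < y2) (h1 : x1 < (R.b1 : EReal)) (h2 : (R.a1 : EReal) < x2)
    (h3 : y1 < (R.b2 : EReal)) (h4 : (R.a2 : EReal) < y2) : Meets R C := by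
  have e1 : max (R.a1 : EReal) x1 < min (R.b1 : EReal) x2 :=
    lt_min (max_lt (EReal.coe_lt_coe_iff.2 R.lt1) h1) (max_lt h2 hx)
  have e2 : max (R.a2 : EReal) y1 < min (R.b2 : EReal) y2 :=
    lt_min (max_lt (EReal.coe_lt_coe_iff.2 R.lt2) h3) (max_lt h4 hy)
  obtain ⟨s, s1, s2⟩ := EReal.lt_iff_exists_real_btwn.1 e1
  obtain ⟨t, t1, t2⟩ := EReal.lt_iff_exists_real_btwn.1 e2
  rw [max_lt_iff] at s1 t1
  rw [lt_min_iff] at s2 t2
  refine ⟨(s, t), ?_, ?_⟩
  · rw [interior_toSet]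
    exact ⟨⟨EReal.coe_lt_coe_iff.1 s1.1, EReal.coe_lt_coe_iff.1 s2.1⟩,
      ⟨EReal.coe_lt_coe_iff.1 t1.1, EReal.coe_lt_coe_iff.1 t2.1⟩⟩
  · rw [hC]
    exact ⟨s1.2, s2.2, t1.2, t2.2⟩

lemma sq_inj (m : ℕ) : Function.Injective (fun p : ℕ × ℕ => sq m p.1 p.2) := by
  intro p q h
  simp only [sq, Rect.mk.injEq] at h
  obtain ⟨h1, -, h2, -⟩ := h
  unfold qa1 at h1
  unfold qa2 at h2
  have hK := KK_pos m
  have e1 : ((p.1 : ℝ) - q.1) * KK m = (p.2 : ℝ) - q.2 := by linarith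
  have e2 : ((p.2 : ℝ) - q.2) * KK m = -((p.1 : ℝ) - q.1) := by linarith
  have e3 : ((p.1 : ℝ) - q.1) * (KK m ^ 2 + 1) = 0 := by
    have : ((p.1 : ℝ) - q.1) * KK m * KK m = -((p.1 : ℝ) - q.1) := by rw [e1]; exact e2
    linear_combination this
  have e4 : (p.1 : ℝ) - q.1 = 0 := by
    rcases mul_eq_zero.1 e3 with h | h
    · exact h
    · nlinarith [sq_nonneg (KK m)]
  have e5 : (p.2 : ℝ) - q.2 = 0 := by rw [← e1, e4, zero_mul]
  ext
  · have : (p.1 : ℝ) = q.1 := by linarith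
    exact_mod_cast this
  · have : (p.2 : ℝ) = q.2 := by linarith
    exact_mod_cast this

lemma interior_left (c : ℝ) : interior {p : ℝ × ℝ | p.1 ≤ c} = {p | p.1 < c} := by
  have : {p : ℝ × ℝ | p.1 ≤ c} = Set.Iic c ×ˢ Set.univ := by ext p; simp
  rw [this, interior_prod_eq, interior_Iic, interior_univ]
  ext p; simp

lemma interior_right (c : ℝ) : interior {p : ℝ × ℝ | c ≤ p.1} = {p | c < p.1} := by
  have : {p : ℝ × ℝ | c ≤ p.1} = Set.Ici c ×ˢ Set.univ := by ext p; simp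
  rw [this, interior_prod_eq, interior_Ici, interior_univ]
  ext p; simp

lemma interior_down (c : ℝ) : interior {p : ℝ × ℝ | p.2 ≤ c} = {p | p.2 < c} := by
  have : {p : ℝ × ℝ | p.2 ≤ c} = Set.univ ×ˢ Set.Iic c := by ext p; simp
  rw [this, interior_prod_eq, interior_Iic, interior_univ]
  ext p; simp

lemma interior_up (c : ℝ) : interior {p : ℝ × ℝ | c ≤ p.2} = {p | c < p.2} := by
  have : {p : ℝ × ℝ | c ≤ p.2} = Set.univ ×ˢ Set.Ici c := by ext p; simp
  rw [this, interior_prod_eq, interior_Ici, interior_univ]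
  ext p; simp

lemma SA_leaf (m k : ℕ) (hk : 1 ≤ k) {S : Finset Rect} {C : Set (ℝ × ℝ)} {x1 x2 y1 y2 : EReal}
    (hC : interior C = Box x1 x2 y1 y2) (hx : x1 < x2) (hy : y1 < y2)
    (hS : ∀ i < m, ∀ j < m, sq m i j ∈ S)
    (hT : ∀ R ∈ S, ∀ R' ∈ S, Meets R C → Meets R' C → R = R') :
    SA m k x1 x2 y1 y2 = ∅ := by
  rw [eq_empty_iff_forall_notMem]
  intro p hp
  unfold SA at hp
  simp only [mem_filter, mem_product, mem_range] at hp
  obtain ⟨⟨hp1, hp2⟩, ⟨hi, hj, hik, hjk⟩, h1, h2, h3, h4⟩ := hp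
  unfold ale at h1
  unfold ari at h2
  unfold abo at h3
  unfold ato at h4
  have hK := KK_def m
  have hKp := KK_pos m
  have k1 : (1 : ℝ) ≤ k := by exact_mod_cast hk
  have m0 : (0 : ℝ) ≤ m := Nat.cast_nonneg m
  have i1 : (1 : ℝ) ≤ p.1 := by exact_mod_cast hi
  have j1 : (1 : ℝ) ≤ p.2 := by exact_mod_cast hj
  have kp : (0 : ℝ) ≤ ((k : ℝ) - 1) * KK m := mul_nonneg (by linarith) hKp.le
  have ei : ((p.1 - 1 : ℕ) : ℝ) = (p.1 : ℝ) - 1 := by rw [Nat.cast_sub hi]; simp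
  have ej : ((p.2 - 1 : ℕ) : ℝ) = (p.2 : ℝ) - 1 := by rw [Nat.cast_sub hj]; simp
  have r1 : ((p.1 : ℝ) + k - 1) * KK m = p.1 * KK m + ((k : ℝ) - 1) * KK m := by ring
  have r2 : ((p.2 : ℝ) + k - 1) * KK m = p.2 * KK m + ((k : ℝ) - 1) * KK m := by ring
  have M1 : Meets (sq m p.1 p.2) C := by
    refine meets_of _ hC hx hy ?_ ?_ ?_ ?_
    · refine er_lt_of_lt_of_le h1 ?_
      show _ ≤ qb1 m p.1 p.2
      unfold qb1
      linarith
    · refine er_lt_of_le_of_lt ?_ h2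
      show qa1 m p.1 p.2 ≤ _
      unfold qa1
      linarith
    · refine er_lt_of_lt_of_le h3 ?_
      show _ ≤ qb2 m p.1 p.2
      unfold qb2
      linarith
    · refine er_lt_of_le_of_lt ?_ h4
      show qa2 m p.1 p.2 ≤ _
      unfold qa2
      linarith
  have M2 : Meets (sq m (p.1 - 1) (p.2 - 1)) C := by
    refine meets_of _ hC hx hy ?_ ?_ ?_ ?_
    · refine er_lt_of_lt_of_le h1 ?_
      show _ ≤ qb1 m (p.1 - 1) (p.2 - 1)
      unfold qb1
      rw [ei, ej]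
      linarith
    · refine er_lt_of_le_of_lt ?_ h2
      show qa1 m (p.1 - 1) (p.2 - 1) ≤ _
      unfold qa1
      rw [ei, ej]
      linarith
    · refine er_lt_of_lt_of_le h3 ?_
      show _ ≤ qb2 m (p.1 - 1) (p.2 - 1)
      unfold qb2
      rw [ei, ej]
      linarith
    · refine er_lt_of_le_of_lt ?_ h4
      show qa2 m (p.1 - 1) (p.2 - 1) ≤ _
      unfold qa2
      rw [ei, ej]
      linarith
  have := hT _ (hS p.1 hp1 p.2 hp2) _ (hS (p.1 - 1) (by omega) (p.2 - 1) (by omega)) M1 M2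
  have h := sq_inj m (a₁ := (p.1, p.2)) (a₂ := (p.1 - 1, p.2 - 1)) this
  simp only [Prod.mk.injEq] at h
  omega

/-- The potential is a lower bound for the size. -/
theorem Phi_le_size (m R : ℕ) (S : Finset Rect) (hS : ∀ i < m, ∀ j < m, sq m i j ∈ S) (T : Tree) :
    ∀ (C : Set (ℝ × ℝ)) (x1 x2 y1 y2 : EReal), interior C = Box x1 x2 y1 y2 → x1 < x2 → y1 < y2 →
      IsBSP S T C → Phi m R x1 x2 y1 y2 ≤ size S T C := by
  induction T with
  | leaf =>
    intro C x1 x2 y1 y2 hC hx hy hT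
    have hT' : ∀ R ∈ S, ∀ R' ∈ S, Meets R C → Meets R' C → R = R' := hT
    unfold Phi
    have e : ∑ r ∈ range R, lam (r + 1) * ((SA m (kk (r + 1)) x1 x2 y1 y2).card : ℝ) = 0 := by
      apply sum_eq_zero
      intro r _
      rw [SA_leaf m (kk (r + 1)) (kk_pos r) hC hx hy hS hT']
      simp
    rw [e, add_zero]
    show ((S0 m x1 x2 y1 y2).card : ℝ) ≤ ((S.filter fun R => Meets R C).card : ℝ)
    rw [Nat.cast_le]
    apply card_le_card_of_injOn (fun p : ℕ × ℕ => sq m p.1 p.2)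
    · intro p hp
      rw [mem_coe] at hp ⊢
      unfold S0 at hp
      simp only [mem_filter, mem_product, mem_range] at hp
      rw [mem_filter]
      exact ⟨hS _ hp.1.1 _ hp.1.2, meets_of _ hC hx hy hp.2.1 hp.2.2.1 hp.2.2.2.1 hp.2.2.2.2⟩
    · exact (sq_inj m).injOn
  | vert c l r ihl ihr =>
    intro C x1 x2 y1 y2 hC hx hy hT
    obtain ⟨⟨p, hp, hpc⟩, hl, hr⟩ := hT
    rw [hC] at hp
    have h1 : x1 < (c : EReal) := hpc ▸ hp.1
    have h2 : (c : EReal) < x2 := hpc ▸ hp.2.1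
    have a := ihl _ x1 c y1 y2 ?_ h1 hy hl
    have b := ihr _ c x2 y1 y2 ?_ h2 hy hr
    · have h := Phi_vert m R c x1 x2 y1 y2 h1 h2
      show _ ≤ ((size S l _ + size S r _ : ℕ) : ℝ)
      push_cast
      linarith
    · rw [interior_inter, hC, interior_right]
      ext q
      unfold Box
      simp only [Set.mem_inter_iff, Set.mem_ofPred_eq, EReal.coe_lt_coe_iff]
      constructor
      · rintro ⟨⟨q1, q2, q3, q4⟩, q5⟩
        exact ⟨q5, q2, q3, q4⟩
      · rintro ⟨q1, q2, q3, q4⟩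
        exact ⟨⟨h1.trans (EReal.coe_lt_coe_iff.2 q1), q2, q3, q4⟩, q1⟩
    · rw [interior_inter, hC, interior_left]
      ext q
      unfold Box
      simp only [Set.mem_inter_iff, Set.mem_ofPred_eq, EReal.coe_lt_coe_iff]
      constructor
      · rintro ⟨⟨q1, q2, q3, q4⟩, q5⟩
        exact ⟨q1, q5, q3, q4⟩
      · rintro ⟨q1, q2, q3, q4⟩
        exact ⟨⟨q1, lt_trans (EReal.coe_lt_coe_iff.2 q2) h2, q3, q4⟩, q2⟩
  | horiz c l r ihl ihr =>
    intro C x1 x2 y1 y2 hC hx hy hT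
    obtain ⟨⟨p, hp, hpc⟩, hl, hr⟩ := hT
    rw [hC] at hp
    have h1 : y1 < (c : EReal) := hpc ▸ hp.2.2.1
    have h2 : (c : EReal) < y2 := hpc ▸ hp.2.2.2
    have a := ihl _ x1 x2 y1 c ?_ hx h1 hl
    have b := ihr _ x1 x2 c y2 ?_ hx h2 hr
    · have h := Phi_horiz m R c x1 x2 y1 y2 h1 h2
      show _ ≤ ((size S l _ + size S r _ : ℕ) : ℝ)
      push_cast
      linarith
    · rw [interior_inter, hC, interior_up]
      ext q
      unfold Box
      simp only [Set.mem_inter_iff, Set.mem_ofPred_eq, EReal.coe_lt_coe_iff]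
      constructor
      · rintro ⟨⟨q1, q2, q3, q4⟩, q5⟩
        exact ⟨q1, q2, q5, q4⟩
      · rintro ⟨q1, q2, q3, q4⟩
        exact ⟨⟨q1, q2, h1.trans (EReal.coe_lt_coe_iff.2 q3), q4⟩, q3⟩
    · rw [interior_inter, hC, interior_down]
      ext q
      unfold Box
      simp only [Set.mem_inter_iff, Set.mem_ofPred_eq, EReal.coe_lt_coe_iff]
      constructor
      · rintro ⟨⟨q1, q2, q3, q4⟩, q5⟩
        exact ⟨q1, q2, q3, q5⟩
      · rintro ⟨q1, q2, q3, q4⟩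
        exact ⟨⟨q1, q2, q3, lt_trans (EReal.coe_lt_coe_iff.2 q4) h2⟩, q4⟩

/-- The initial value of the potential. -/
lemma Phi_univ (m R : ℕ) (κ : ℕ) (hκ : ∀ r ≤ R, kk r ≤ κ) (hm : κ ≤ m) :
    (∑ r ∈ range (R + 1), lam r) * ((m : ℝ) - κ) ^ 2 ≤ Phi m R ⊥ ⊤ ⊥ ⊤ := by
  rw [sum_range_succ', add_mul, add_comm]
  have hm' : (κ : ℝ) ≤ m := by exact_mod_cast hm
  have hpos : (0 : ℝ) ≤ (m : ℝ) - κ := by linarith
  unfold Phi
  apply add_le_add
  · have e : (S0 m ⊥ ⊤ ⊥ ⊤).card = m * m := by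
      have : S0 m ⊥ ⊤ ⊥ ⊤ = range m ×ˢ range m := by
        unfold S0
        apply filter_true_of_mem
        intro p _
        exact ⟨EReal.bot_lt_coe _, EReal.coe_lt_top _, EReal.bot_lt_coe _, EReal.coe_lt_top _⟩
      rw [this, card_product, card_range]
    rw [e]
    have : lam 0 = 1 := by simp [lam]
    rw [this, one_mul]
    push_cast
    have : (0 : ℝ) ≤ κ := Nat.cast_nonneg κ
    nlinarith
  · rw [sum_mul]
    apply sum_le_sum
    intro r hr
    rw [mem_range] at hr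
    apply mul_le_mul_of_nonneg_left _ (lam_pos (r + 1)).le
    have hk := hκ (r + 1) (by omega)
    have hsub : Icc 1 (m - kk (r + 1)) ×ˢ Icc 1 (m - kk (r + 1)) ⊆
        SA m (kk (r + 1)) ⊥ ⊤ ⊥ ⊤ := by
      intro p hp
      have hkp := kk_pos r
      rw [mem_product, mem_Icc, mem_Icc] at hp
      unfold SA
      simp only [mem_filter, mem_product, mem_range]
      exact ⟨⟨by omega, by omega⟩, ⟨by omega, by omega, by omega, by omega⟩,
        EReal.bot_lt_coe _, EReal.coe_lt_top _, EReal.bot_lt_coe _, EReal.coe_lt_top _⟩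
    have h2 := card_le_card hsub
    rw [card_product, Nat.card_Icc, Nat.add_sub_cancel] at h2
    have h3 : ((m - kk (r + 1) : ℕ) : ℝ) * ((m - kk (r + 1) : ℕ) : ℝ) ≤
        ((SA m (kk (r + 1)) ⊥ ⊤ ⊥ ⊤).card : ℝ) := by exact_mod_cast h2
    have h4 : (m : ℝ) - κ ≤ ((m - kk (r + 1) : ℕ) : ℝ) := by
      rw [Nat.cast_sub (by omega)]
      have : (kk (r + 1) : ℝ) ≤ κ := by exact_mod_cast hk
      linarith
    nlinarith

/-- Additional rectangles, far away from the grid. -/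
noncomputable def ex (m t : ℕ) : Rect :=
  ⟨((m : ℝ) + 2) * KK m + 2 * t, ((m : ℝ) + 2) * KK m + 2 * t + 1, 0, 1, by linarith, by norm_num⟩

lemma disj_of {R R' : Rect} (h : R.b1 < R'.a1 ∨ R'.b1 < R.a1 ∨ R.b2 < R'.a2 ∨ R'.b2 < R.a2) :
    Disjoint R.toSet R'.toSet := by
  rw [Set.disjoint_left]
  rintro p ⟨⟨p1, p2⟩, ⟨p3, p4⟩⟩ ⟨⟨p5, p6⟩, ⟨p7, p8⟩⟩
  rcases h with h | h | h | h <;> linarith

lemma sq_disj (m : ℕ) (p q : ℕ × ℕ) (hp1 : p.1 < m) (hp2 : p.2 < m) (hq1 : q.1 < m)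
    (hq2 : q.2 < m) (h : p ≠ q) : Disjoint (sq m p.1 p.2).toSet (sq m q.1 q.2).toSet := by
  have hK := KK_def m
  have hKp := KK_pos m
  have key : ∀ p q : ℕ × ℕ, p.1 < m → p.2 < m → q.1 < m → q.2 < m →
      (p.1 < q.1 ∨ (p.1 = q.1 ∧ p.2 < q.2)) →
      Disjoint (sq m p.1 p.2).toSet (sq m q.1 q.2).toSet := by
    intro p q hp1 hp2 hq1 hq2 hlt
    have b1 : (q.2 : ℝ) ≤ m := by exact_mod_cast hq2.le
    have b2 : (0 : ℝ) ≤ p.2 := Nat.cast_nonneg _
    apply disj_of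
    show qb1 m p.1 p.2 < qa1 m q.1 q.2 ∨ qb1 m q.1 q.2 < qa1 m p.1 p.2 ∨
      qb2 m p.1 p.2 < qa2 m q.1 q.2 ∨ qb2 m q.1 q.2 < qa2 m p.1 p.2
    unfold qa1 qb1 qa2 qb2
    rcases hlt with hlt | ⟨he, hlt⟩
    · rcases Nat.lt_or_ge (p.1 + 1) q.1 with h2 | h2
      · left
        have c1 : (p.1 : ℝ) + 2 ≤ q.1 := by exact_mod_cast h2
        have c2 : ((p.1 : ℝ) + 2) * KK m ≤ q.1 * KK m := mul_le_mul_of_nonneg_right c1 hKp.le
        linarith
      · have e1 : q.1 = p.1 + 1 := by omega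
        rcases Nat.lt_or_ge p.2 q.2 with h3 | h3
        · right; right; left
          have c1 : (p.2 : ℝ) + 1 ≤ q.2 := by exact_mod_cast h3
          have c2 : ((p.2 : ℝ) + 1) * KK m ≤ q.2 * KK m := mul_le_mul_of_nonneg_right c1 hKp.le
          rw [e1]
          push_cast
          linarith
        · left
          have c1 : (q.2 : ℝ) ≤ p.2 := by exact_mod_cast h3
          rw [e1]
          push_cast
          linarith
    · right; right; left
      have c1 : (p.2 : ℝ) + 1 ≤ q.2 := by exact_mod_cast hlt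
      have c2 : ((p.2 : ℝ) + 1) * KK m ≤ q.2 * KK m := mul_le_mul_of_nonneg_right c1 hKp.le
      rw [he]
      linarith
  rcases lt_trichotomy p.1 q.1 with h1 | h1 | h1
  · exact key p q hp1 hp2 hq1 hq2 (Or.inl h1)
  · rcases lt_trichotomy p.2 q.2 with h2 | h2 | h2
    · exact key p q hp1 hp2 hq1 hq2 (Or.inr ⟨h1, h2⟩)
    · exact absurd (Prod.ext h1 h2) h
    · exact (key q p hq1 hq2 hp1 hp2 (Or.inr ⟨h1.symm, h2⟩)).symm
  · exact (key q p hq1 hq2 hp1 hp2 (Or.inl h1)).symm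

lemma exists_set (m n : ℕ) (hmn : m * m ≤ n) :
    ∃ S : Finset Rect, S.card = n ∧ (S : Set Rect).PairwiseDisjoint Rect.toSet ∧
      ∀ i < m, ∀ j < m, sq m i j ∈ S := by
  have hK := KK_def m
  have hKp := KK_pos m
  have hexinj : Function.Injective (ex m) := by
    intro s t h
    simp only [ex, Rect.mk.injEq] at h
    have h1 := h.1
    have : (s : ℝ) = t := by linarith
    exact_mod_cast this
  have hfar : ∀ (p : ℕ × ℕ) (t : ℕ), p.1 < m → (sq m p.1 p.2).b1 < (ex m t).a1 := by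
    intro p t hp
    show qb1 m p.1 p.2 < ((m : ℝ) + 2) * KK m + 2 * t
    unfold qb1
    have c1 : (p.1 : ℝ) + 1 ≤ m := by exact_mod_cast hp
    have c2 : ((p.1 : ℝ) + 1) * KK m ≤ m * KK m := mul_le_mul_of_nonneg_right c1 hKp.le
    have c3 : (0 : ℝ) ≤ p.2 := Nat.cast_nonneg _
    have c4 : (0 : ℝ) ≤ t := Nat.cast_nonneg _
    linarith
  obtain ⟨A, hA⟩ : ∃ A : Finset Rect,
      A = (range m ×ˢ range m).image (fun p : ℕ × ℕ => sq m p.1 p.2) := ⟨_, rfl⟩
  obtain ⟨B, hB⟩ : ∃ B : Finset Rect, B = (range (n - m * m)).image (ex m) := ⟨_, rfl⟩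
  have hAB : Disjoint A B := by
    rw [disjoint_left]
    intro R hR hR'
    rw [hA, mem_image] at hR
    rw [hB, mem_image] at hR'
    obtain ⟨p, hp, rfl⟩ := hR
    obtain ⟨t, -, ht⟩ := hR'
    rw [mem_product, mem_range, mem_range] at hp
    have h := hfar p t hp.1
    rw [ht] at h
    have := (sq m p.1 p.2).lt1
    linarith
  refine ⟨A ∪ B, ?_, ?_, ?_⟩
  · rw [card_union_of_disjoint hAB, hA, hB, card_image_of_injective _ (sq_inj m),
      card_image_of_injective _ hexinj, card_product, card_range, card_range]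
    omega
  · intro R hR R' hR' hne
    show Disjoint R.toSet R'.toSet
    rw [mem_coe, mem_union, hA, hB, mem_image, mem_image] at hR hR'
    rcases hR with ⟨p, hp, rfl⟩ | ⟨s, hs, rfl⟩ <;> rcases hR' with ⟨q, hq, rfl⟩ | ⟨t, ht, rfl⟩
    · rw [mem_product, mem_range, mem_range] at hp hq
      exact sq_disj m p q hp.1 hp.2 hq.1 hq.2 fun h => hne (by rw [h])
    · rw [mem_product, mem_range, mem_range] at hp
      exact disj_of (Or.inl (hfar p t hp.1))
    · rw [mem_product, mem_range, mem_range] at hq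
      exact disj_of (Or.inr (Or.inl (hfar q s hq.1)))
    · have hst : s ≠ t := fun h => hne (by rw [h])
      apply disj_of
      show ((m : ℝ) + 2) * KK m + 2 * s + 1 < ((m : ℝ) + 2) * KK m + 2 * t ∨
        ((m : ℝ) + 2) * KK m + 2 * t + 1 < ((m : ℝ) + 2) * KK m + 2 * s ∨ _
      rcases Nat.lt_or_gt_of_ne hst with h | h
      · left
        have : (s : ℝ) + 1 ≤ t := by exact_mod_cast h
        linarith
      · right; left
        have : (t : ℝ) + 1 ≤ s := by exact_mod_cast h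
        linarith
  · intro i hi j hj
    rw [mem_union, hA]
    left
    exact mem_image.2 ⟨(i, j), mem_product.2 ⟨mem_range.2 hi, mem_range.2 hj⟩, rfl⟩

theorem main_sum (N : ℕ) (c : ℝ) (hc : c < ∑ r ∈ range (N + 1), lam r) :
    ∀ᶠ n : ℕ in Filter.atTop, ∃ S : Finset Rect, S.card = n ∧
      (S : Set Rect).PairwiseDisjoint Rect.toSet ∧
      ∀ T : Tree, IsBSP S T Set.univ → c * n ≤ size S T Set.univ := by
  obtain ⟨L, hL⟩ : ∃ L, L = ∑ r ∈ range (N + 1), lam r := ⟨_, rfl⟩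
  rw [← hL] at hc
  have hL0 : 0 < L := by
    rw [hL]
    exact sum_pos (fun r _ => lam_pos r) ⟨0, by simp⟩
  obtain ⟨κ, hκ⟩ : ∃ κ : ℕ, ∀ r ≤ N, kk r ≤ κ := by
    refine ⟨kk N, fun r hr => ?_⟩
    unfold kk
    exact Nat.sub_le_sub_right (Nat.pow_le_pow_right (by norm_num) hr) 1
  obtain ⟨M, hM⟩ := exists_nat_ge ((2 * L * κ + 3 * |c|) / (L - c))
  have hδ : 0 < L - c := by linarith
  rw [div_le_iff₀ hδ] at hM
  rw [Filter.eventually_atTop]
  refine ⟨(M + κ + 1) * (M + κ + 1), fun n hn => ?_⟩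
  obtain ⟨m, hm⟩ : ∃ m, m = Nat.sqrt n := ⟨_, rfl⟩
  have hmn : m * m ≤ n := by rw [hm]; exact Nat.sqrt_le n
  have hnm : n < (m + 1) * (m + 1) := by rw [hm]; exact Nat.lt_succ_sqrt n
  have hmM : M + κ + 1 ≤ m := by
    rw [hm, Nat.le_sqrt]
    exact hn
  obtain ⟨S, hS1, hS2, hS3⟩ := exists_set m n hmn
  refine ⟨S, hS1, hS2, fun T hT => ?_⟩
  have h1 := Phi_le_size m N S hS3 T Set.univ ⊥ ⊤ ⊥ ⊤ (by
    rw [interior_univ]
    ext p
    simp [Box, EReal.bot_lt_coe, EReal.coe_lt_top]) bot_lt_top bot_lt_top hT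
  have h2 := Phi_univ m N κ hκ (by omega)
  rw [← hL] at h2
  have c1 : (M : ℝ) + κ + 1 ≤ m := by exact_mod_cast hmM
  have c2 : (n : ℝ) ≤ ((m : ℝ) + 1) * ((m : ℝ) + 1) := by exact_mod_cast hnm.le
  have c3 : (0 : ℝ) ≤ κ := Nat.cast_nonneg κ
  have c4 : (0 : ℝ) ≤ M := Nat.cast_nonneg M
  have c5 : (0 : ℝ) ≤ n := Nat.cast_nonneg n
  refine le_trans ?_ (h2.trans h1)
  have c6 : c * n ≤ |c| * (((m : ℝ) + 1) * ((m : ℝ) + 1)) ∧
      c * n ≤ c * (((m : ℝ) + 1) * ((m : ℝ) + 1)) ∨ c ≤ 0 := by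
    rcases le_or_gt c 0 with h | h
    · right; exact h
    · left
      rw [abs_of_pos h]
      exact ⟨mul_le_mul_of_nonneg_left c2 h.le, mul_le_mul_of_nonneg_left c2 h.le⟩
  rcases c6 with h | h
  · refine h.2.trans ?_
    have hcc : c ≤ |c| := le_abs_self c
    have d1 : (2 * L * κ + 3 * |c|) * m ≤ ((M : ℝ) * (L - c)) * m :=
      mul_le_mul_of_nonneg_right hM (Nat.cast_nonneg m)
    have d2 : ((M : ℝ) * (L - c)) * m ≤ ((m : ℝ) * (L - c)) * m := by
      apply mul_le_mul_of_nonneg_right _ (Nat.cast_nonneg m)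
      exact mul_le_mul_of_nonneg_right (by linarith) hδ.le
    have d3 : c * m ≤ |c| * m := mul_le_mul_of_nonneg_right hcc (Nat.cast_nonneg m)
    have d4 : c ≤ |c| * m := by
      have : |c| * 1 ≤ |c| * m := mul_le_mul_of_nonneg_left (by linarith) (abs_nonneg c)
      linarith
    have d5 : 0 ≤ L * (κ : ℝ) ^ 2 := mul_nonneg hL0.le (sq_nonneg _)
    nlinarith
  · have : c * n ≤ 0 := mul_nonpos_of_nonpos_of_nonneg h c5
    refine this.trans (mul_nonneg hL0.le (sq_nonneg _))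

/-- The lower bound. -/
theorem main (c : ℝ) (hc : c < ∏' k : ℕ, (1 + 1 / (2 : ℝ) ^ (k + 1))) :
    ∀ᶠ n : ℕ in Filter.atTop, ∃ S : Finset Rect, S.card = n ∧
      (S : Set Rect).PairwiseDisjoint Rect.toSet ∧
      ∀ T : Tree, IsBSP S T Set.univ → c * n ≤ size S T Set.univ := by
  have hsum : Summable (fun k : ℕ => 1 / (2 : ℝ) ^ (k + 1)) := by
    have h : Summable (fun k : ℕ => (1 / 2 : ℝ) ^ k) := summable_geometric_two
    have h2 := (summable_nat_add_iff 1).2 h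
    refine h2.congr fun k => ?_
    rw [one_div_pow]
  have hmul : Multipliable (fun k : ℕ => 1 + 1 / (2 : ℝ) ^ (k + 1)) :=
    Real.multipliable_one_add_of_summable hsum
  have ht := hmul.hasProd.tendsto_prod_nat
  obtain ⟨N, hN⟩ := (ht.eventually (lt_mem_nhds hc)).exists
  exact main_sum N c (hN.trans_le (lam_sum N))

end Pool.Agent.Helper30.BSP
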